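import Pool.Agent.Helper12.QZ.LL
import Pool.Agent.Helper14.QZ.PR0
import Pool.Agent.Helper2.QZ.UV
import Pool.Agent.Helper23.QZ.PR2
import Pool.Agent.Helper24.QZ.FIN
import Pool.Agent.Helper27.QZ.EX
import Pool.Agent.Helper33.QZ.AR
import Pool.Agent.Helper34.QZ.SM1
import Pool.Agent.Helper51.QZ.VM4
import Pool.Agent.Helper54.QZ.DT2
import Pool.Agent.Helper6.QZ.KW
import Pool.Agent.Helper61.QZ.VM2
import Pool.Agent.Helper66.QZ.VM1
import Pool.Agent.Helper77.QZ.DT1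
import Pool.Agent.Helper78.QZ.RM
import Pool.Agent.Helper80.QZ.LO
import Pool.Agent.Helper81.QZ.CN
import Pool.Agent.Helper82.QZ.VM3
import Pool.Agent.Helper89.QZ.BR
import Pool.Agent.Helper9.QZ.SM5
import Pool.Agent.Helper91.QZ.MS
import Pool.Agent.Helper93.QZ.SM4
import Pool.Agent.Helper96.QZ.PR1
import Pool.Agent.Helper98.QZ.TS

/-!
# Assembly of the first sheet
-/

set_option autoImplicit false

namespace Pool.Agent.Helper57.QZ

theorem a_vm1 : ST_VM1 := Pool.Agent.Helper66.QZ.st_vm1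
theorem a_vm3 : ST_VM3 := Pool.Agent.Helper82.QZ.vm3_of a_vm1
theorem a_vm4 : ST_VM4 := Pool.Agent.Helper51.QZ.st_VM4 a_vm1 st_VM2 a_vm3
theorem a_sm4 : ST_SM4 := Pool.Agent.Helper93.QZ.sm4_of a_vm4
theorem a_sm5 : ST_SM5 := sm5_of st_VM2 a_vm3
theorem a_ll : ST_LL := ll_of a_vm1 a_vm3
theorem a_pr0 : ST_PR0 := Pool.Agent.Helper14.QZ.st_PR0
theorem a_us : ST_US := Pool.Agent.Helper14.QZ.us_of a_pr0
theorem a_uv : ST_UV := uv_of a_pr0 st_PR2 a_sm4 a_sm5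
theorem a_dt1 : ST_DT1 := Pool.Agent.Helper77.QZ.st_dt1
theorem a_lo : ST_LO := lo_of a_pr0 st_PR1 a_dt1 st_sm1 a_sm5 st_VM2 a_vm3
theorem a_rm : ST_RM := rm_of a_lo a_uv a_us st_PR2 a_dt1 st_DT2 a_ll a_sm5
theorem a_ex : ST_EX := Pool.Agent.Helper27.QZ.ex_of (ar_of st_MS) st_br
theorem a_ts : ST_TS := Pool.Agent.Helper98.QZ.ts_of a_rm Pool.Agent.Helper6.QZ.st_kw2 a_ex
  Pool.Agent.Helper81.QZ.st_CN
theorem a_fin : ST_FIN := fin_of a_ts

end Pool.Agent.Helper57.QZ
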