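import Pool.Agent.Helper57.QZ.Asm
import Pool.Agent.Helper12.Q2.XD
import Pool.Agent.Helper16.Q2.LT
import Pool.Agent.Helper2.Q2.VT
import Pool.Agent.Helper20.Q2.KE3
import Pool.Agent.Helper22.Q2.WT
import Pool.Agent.Helper3.Q2.XM
import Pool.Agent.Helper31.Q2.XS
import Pool.Agent.Helper32.QZ.EP
import Pool.Agent.Helper4.Q2.UT
import Pool.Agent.Helper40.Q2.QB
import Pool.Agent.Helper46.Q2.TS2
import Pool.Agent.Helper47.Q2.TL
import Pool.Agent.Helper50.Q2.KE1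
import Pool.Agent.Helper55.Q2.ROT
import Pool.Agent.Helper62.Q2.RT
import Pool.Agent.Helper66.Q2.ST
import Pool.Agent.Helper7.QZ.GD2
import Pool.Agent.Helper70.QZ.FIN2
import Pool.Agent.Helper73.Q2.EU
import Pool.Agent.Helper76.Q2.GD1
import Pool.Agent.Helper76.QZ.PL
import Pool.Agent.Helper77.Q2.TPM
import Pool.Agent.Helper80.Q2.XR
import Pool.Agent.Helper81.QZ.TPA
import Pool.Agent.Helper84.Q2.XB
import Pool.Agent.Helper88.Q2.XE
import Pool.Agent.Helper89.Q2.LG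
import Pool.Agent.Helper91.Q2.ZG
import Pool.Agent.Helper92.Q2.EX2
import Pool.Agent.Helper93.Q2.KE2
import Pool.Agent.Helper99.Q2.LD

/-!
# Assembly of the second sheet
-/

set_option autoImplicit false

namespace Pool.Agent.Helper57.QZ

theorem b_qb : ST_QB := qb_of st_sm1 a_sm5 st_VM2 a_vm3
theorem b_wt : ST_WT := wt_of a_pr0 st_ROT
theorem b_ut : ST_UT := ut_of a_pr0 st_ROT Pool.Agent.Helper81.QZ.st_TPA
  Pool.Agent.Helper77.Q2.st_TPM
theorem b_vt : ST_VT := vt_of b_ut a_sm4 a_sm5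
theorem b_st : ST_ST := Pool.Agent.Helper66.Q2.st_of b_ut a_vm3
theorem b_eu : ST_EU := eu_of a_vm3
theorem b_lg : ST_LG := lg_of a_vm1 a_vm3
theorem b_lt : ST_LT := lt_of b_qb a_pr0 st_PR1 st_ROT Pool.Agent.Helper81.QZ.st_TPA
  Pool.Agent.Helper77.Q2.st_TPM b_wt a_vm3
theorem b_rt : ST_RT := rt_of b_lt b_vt b_st a_ll b_lg b_eu a_dt1 st_DT2 a_sm5
theorem b_xs : ST_XS := Pool.Agent.Helper31.Q2.xs_of Pool.Agent.Helper76.QZ.st_PL
  (xm_of st_XE st_XB) (xd_of st_XB) st_XB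
theorem b_xr : ST_XR := xr_of b_xs
theorem b_ld : ST_LD := ld_of st_ZG
theorem b_gd1 : ST_GD1 := Pool.Agent.Helper76.Q2.gd1_of b_ld st_ke1 Pool.Agent.Helper93.Q2.st_ke2
theorem b_gd2 : ST_GD2 := gd2_of b_gd1 st_ke1 st_KE3 st_br Pool.Agent.Helper32.QZ.st_ep
theorem b_ex2 : ST_EX2 := ex2_of b_xr b_gd2 st_TL
theorem a_fin2 : ST_FIN2 := fin2_of (Pool.Agent.Helper46.Q2.ts2_of b_rt b_ex2)

end Pool.Agent.Helper57.QZ
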