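import Pool.Agent.Helper57.QZ.Asm2
import Pool.Agent.Helper57.Q3.TL3
import Pool.Agent.Helper57.Q3.EX3
import Pool.Agent.Helper62.Q3.RT3
import Pool.Agent.Helper57.Q3.TS3
import Pool.Agent.Helper70.Q3.FIN3

/-!
# Assembly of the third sheet
-/

set_option autoImplicit false

namespace Pool.Agent.Helper57.QZ

theorem b_ex3 : ST_EX3 := ex3_of57 b_xr b_gd2 st_TL3_57
theorem b_rt3 : ST_RT3 := rt3_of b_lt b_vt b_st a_ll b_lg b_eu a_dt1 st_DT2 a_sm5
theorem a_fin3 : ST_FIN3 := fin3_of (Pool.Agent.Helper57.Q3.ts3_of57 b_rt3 b_ex3)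

end Pool.Agent.Helper57.QZ
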