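import Mathlib

/-!
# Definitions for the quantile form of the question on Re (e^{-iθ} ζ'/ζ), |ζ'| and |ζ|
-/

set_option autoImplicit false

namespace Pool.Agent.Helper57.QZ

open MeasureTheory Set Filter Topology

/-- the primes up to `y` -/
abbrev Pr (y : ℕ) : Type := {p : ℕ // p ∈ Nat.primesBelow (y + 1)}

/-- the uniform probability measure on the angles `(0, 2π]` -/
noncomputable def circ : Measure ℝ :=
  (ENNReal.ofReal (2 * Real.pi))⁻¹ • volume.restrict (Ioc 0 (2 * Real.pi))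

/-- the product of the uniform measures, one angle for each prime up to `y` -/
noncomputable def tor (y : ℕ) : Measure (Pr y → ℝ) := Measure.pi fun _ => circ

instance : IsProbabilityMeasure circ := by
  constructor
  unfold circ
  rw [Measure.smul_apply, Measure.restrict_apply_univ, Real.volume_Ioc, smul_eq_mul, sub_zero]
  exact ENNReal.inv_mul_cancel (by simp [Real.pi_pos]) ENNReal.ofReal_ne_top

instance (y : ℕ) : IsProbabilityMeasure (tor y) := by
  unfold tor; infer_instance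

/-- `p^{-σ}` -/
noncomputable def aa (σ : ℝ) (p : ℕ) : ℝ := (p : ℝ) ^ (-σ)

/-- the Euler product over `p ≤ y` with `p^{-it}` replaced by `e^{-i φ_p}` -/
noncomputable def Zy (y : ℕ) (σ : ℝ) (φ : Pr y → ℝ) : ℂ :=
  ∏ p : Pr y, (1 - Complex.exp (-((φ p : ℂ) * Complex.I)) * (aa σ p : ℂ))⁻¹

/-- its logarithmic derivative -/
noncomputable def Wy (y : ℕ) (σ : ℝ) (φ : Pr y → ℝ) : ℂ :=
  -∑ p : Pr y, (Real.log p : ℂ) * (Complex.exp (-((φ p : ℂ) * Complex.I)) * (aa σ p : ℂ)) /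
    (1 - Complex.exp (-((φ p : ℂ) * Complex.I)) * (aa σ p : ℂ))

/-- the linear part of `log |Zy|` -/
noncomputable def Sy (y : ℕ) (σ : ℝ) (φ : Pr y → ℝ) : ℝ := ∑ p : Pr y, aa σ p * Real.cos (φ p)

/-- minus the linear part of `Wy` -/
noncomputable def Vy (y : ℕ) (σ : ℝ) (φ : Pr y → ℝ) : ℂ :=
  ∑ p : Pr y, ((aa σ p * Real.log p : ℝ) : ℂ) * Complex.exp (-((φ p : ℂ) * Complex.I))

/-- the contribution of the prime powers to `log |Zy|` at `φ = 0` -/
noncomputable def Ky (y : ℕ) (σ : ℝ) : ℝ := ∑ p : Pr y, (-Real.log (1 - aa σ p) - aa σ p)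

/-- the Bessel function `I₀` -/
noncomputable def I0 (x : ℝ) : ℝ := ∫ φ, Real.exp (x * Real.cos φ) ∂circ

/-- `I₀'/I₀` -/
noncomputable def rr (x : ℝ) : ℝ := (∫ φ, Real.cos φ * Real.exp (x * Real.cos φ) ∂circ) / I0 x

/-- the variance of `cos φ` for the density proportional to `e^{x cos φ}` -/
noncomputable def vv (x : ℝ) : ℝ :=
  (∫ φ, Real.cos φ ^ 2 * Real.exp (x * Real.cos φ) ∂circ) / I0 x - rr x ^ 2

/-- `log I₀` -/
noncomputable def ell (x : ℝ) : ℝ := Real.log (I0 x)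

/-- the mean of `Sy` after tilting by `e^{s Sy}` -/
noncomputable def muy (y : ℕ) (σ s : ℝ) : ℝ := ∑ p : Pr y, aa σ p * rr (s * aa σ p)

/-- the mean of `Re Vy` after tilting by `e^{s Sy}` -/
noncomputable def omy (y : ℕ) (σ s : ℝ) : ℝ := ∑ p : Pr y, aa σ p * Real.log p * rr (s * aa σ p)

/-- the rate function at `muy` -/
noncomputable def Ly (y : ℕ) (σ s : ℝ) : ℝ :=
  ∑ p : Pr y, (s * aa σ p * rr (s * aa σ p) - ell (s * aa σ p))

/-- the second order term -/
noncomputable def Bf (κ x : ℝ) : ℝ := x * rr x * (1 - κ) + ell (κ * x) - ell x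

/-- number of `n ∈ [2, x]` all of whose prime factors exceed `y` -/
noncomputable def Nc (y : ℕ) (x : ℝ) : ℝ :=
  (((Finset.Icc 2 ⌊x⌋₊).filter fun n => ∀ p ∈ n.primeFactors, y < p).card : ℝ)

/-- the inverse Mellin transform of `F(s) (s - 1) / (s (s + 1))` -/
noncomputable def g2 (y : ℕ) (x : ℝ) : ℝ := Nc y x - 2 / x * ∫ u in (0:ℝ)..x, Nc y u

/-- `ζ(s) ∏_{p ≤ y} (1 - p^{-s}) - 1` -/
noncomputable def Fy (y : ℕ) (s : ℂ) : ℂ :=
  riemannZeta s * ∏ p : Pr y, (1 - ((p : ℕ) : ℂ) ^ (-s)) - 1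

/-- the point `σ + i t` -/
noncomputable def pt (σ t : ℝ) : ℂ := (σ : ℂ) + (t : ℂ) * Complex.I

/-- the vector `(t log p)_{p ≤ y}` -/
noncomputable def lin (y : ℕ) (t : ℝ) : Pr y → ℝ := fun p => t * Real.log p

/-- the level that `f` reaches on a set of measure at least `T/N` in `[T, 2T]` -/
noncomputable def top (N T : ℝ) (f : ℝ → ℝ) : ℝ :=
  sSup {v : ℝ | T / N ≤ volume.real {t : ℝ | t ∈ Icc T (2 * T) ∧ v ≤ f t}}

end Pool.Agent.Helper57.QZ
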