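import Pool.Agent.Helper57.QZ.Defs

/-!
# Statement sheet for the quantile theorem
-/

set_option autoImplicit false

namespace Pool.Agent.Helper57.QZ

open MeasureTheory Set Filter Topology

/-- derivatives of `log I₀` and of `I₀'/I₀` -/
def ST_VM1 : Prop := ∀ x : ℝ, HasDerivAt ell (rr x) x ∧ HasDerivAt rr (vv x) x

/-- bounds for the first two moments of `1 - cos φ` -/
def ST_VM2 : Prop := ∀ x : ℝ, 0 < x → 1 - rr x ≤ 2 / x ∧ vv x ≤ 5 / x ^ 2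

/-- elementary bounds -/
def ST_VM3 : Prop := (∀ x : ℝ, 0 < I0 x ∧ 0 ≤ vv x ∧ vv x ≤ 1 ∧ rr x ≤ 1) ∧
  (∀ x : ℝ, 0 ≤ x → 0 ≤ rr x ∧ rr x ≤ x ∧ 0 ≤ ell x ∧ ell x ≤ x ∧ ell x ≤ x * rr x)

/-- bounds for the second order term -/
def ST_VM4 : Prop := (∀ κ x : ℝ, 0 < κ → κ ≤ 1 → 0 < x → Bf κ x ≤ 5 * (1 - κ) ^ 2 / κ) ∧
  (∀ κ x : ℝ, 1 ≤ κ → 0 ≤ x → Bf κ x ≤ (κ - 1) ^ 2 * x ^ 2)

/-- `log |Zy|` against its linear part -/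
def ST_DT1 : Prop := ∀ (y : ℕ) (σ : ℝ) (φ : Pr y → ℝ), 1 / 2 ≤ σ →
  Zy y σ φ ≠ 0 ∧ Real.log ‖Zy y σ φ‖ ≤ Sy y σ φ + Ky y σ ∧
  Sy y σ φ + Ky y σ - Real.log ‖Zy y σ φ‖ ≤
    16 * ∑ p : Pr y, aa σ p ^ 2 * (1 - Real.cos (φ p)) ∧ 0 ≤ Ky y σ

/-- `Wy` against its linear part -/
def ST_DT2 : Prop := ∀ ε : ℝ, 0 < ε → ∃ C : ℝ, ∀ (y : ℕ) (σ : ℝ) (φ : Pr y → ℝ),
  1 / 2 + ε ≤ σ → ‖Wy y σ φ + Vy y σ φ‖ ≤ C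

/-- the sums giving the variances and the mean of the defect -/
def ST_SM1 : Prop := ∀ ε ∈ Ioo (0:ℝ) (1 / 2), ∃ C : ℝ, ∀ (y : ℕ) (σ z : ℝ),
  σ ∈ Icc (1 / 2 + ε) 1 → 2 ≤ z →
  ∑ p : Pr y, aa σ p ^ 2 * (1 + Real.log p) ^ 2 * min 1 (5 / (z ^ σ * aa σ p) ^ 2) ≤
    C * z ^ (-(2 * ε)) * Real.log z ^ 2 ∧
  ∑ p : Pr y, aa σ p ^ 2 * min 1 (2 / (z ^ σ * aa σ p)) ≤ C * z ^ (-(2 * ε)) * Real.log z ^ 2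

/-- the sum of the second order terms -/
def ST_SM4 : Prop := ∀ ε ∈ Ioo (0:ℝ) (1 / 2), ∃ C z₀ : ℝ, 3 ≤ z₀ ∧ 0 < C ∧
  ∀ (y : ℕ) (σ z : ℝ), σ ∈ Icc (1 / 2 + ε) 1 → z₀ ≤ z →
  ∑ p : Pr y, Bf (Real.log p / Real.log z) (z ^ σ * aa σ p) ≤ C * z / Real.log z ^ 2

/-- lower bound for `omy` -/
def ST_SM5 : Prop := ∃ c z₀ : ℝ, 3 ≤ z₀ ∧ 0 < c ∧
  ∀ (y : ℕ) (σ z : ℝ), σ ∈ Icc (1 / 2) 1 → z₀ ≤ z → z ≤ y →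
  c * (Real.log z + z ^ (1 - σ)) ≤ omy y σ (z ^ σ)

/-- the rate function: sign, growth and continuity -/
def ST_LL : Prop := ∀ ε ∈ Ioo (0:ℝ) (1 / 2), ∃ C : ℝ, ∀ (y : ℕ) (σ : ℝ), σ ∈ Icc (1 / 2 + ε) 1 →
  Continuous (fun s : ℝ => Ly y σ s) ∧ Ly y σ 0 = 0 ∧
  (∀ s : ℝ, 0 ≤ s → 0 ≤ Ly y σ s ∧ Ly y σ s ≤ C * s ^ 2 ∧ 0 ≤ muy y σ s)

/-- the exponential moment of a weighted sum of cosines -/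
def ST_PR0 : Prop := ∀ (y : ℕ) (c : Pr y → ℝ),
  ∫ φ, Real.exp (∑ p : Pr y, c p * Real.cos (φ p)) ∂tor y = Real.exp (∑ p : Pr y, ell (c p))

/-- second moments and means after tilting -/
def ST_PR1 : Prop := ∀ (y : ℕ) (b c : Pr y → ℝ),
  (∫ φ, (∑ p : Pr y, b p * (Real.cos (φ p) - rr (c p))) ^ 2 *
      Real.exp (∑ p : Pr y, c p * Real.cos (φ p)) ∂tor y =
    Real.exp (∑ p : Pr y, ell (c p)) * ∑ p : Pr y, b p ^ 2 * vv (c p)) ∧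
  (∫ φ, (∑ p : Pr y, b p * (1 - Real.cos (φ p))) *
      Real.exp (∑ p : Pr y, c p * Real.cos (φ p)) ∂tor y =
    Real.exp (∑ p : Pr y, ell (c p)) * ∑ p : Pr y, b p * (1 - rr (c p)))

/-- rotation invariance of the law of `Vy` -/
def ST_PR2 : Prop := ∀ (y : ℕ) (σ α v : ℝ),
  (tor y).real {φ | v ≤ (Complex.exp (-((α : ℂ) * Complex.I)) * Vy y σ φ).re} =
    (tor y).real {φ | v ≤ (Vy y σ φ).re}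

/-- the lower bound by tilting -/
def ST_LO : Prop := ∀ ε ∈ Ioo (0:ℝ) (1 / 2), ∀ η ∈ Ioo (0:ℝ) 1, ∃ z₀ : ℝ,
  ∀ (y : ℕ) (σ z : ℝ), σ ∈ Icc (1 / 2 + ε) 1 → z₀ ≤ z → z ≤ y →
  (1 / 2) * Real.exp (-(Ly y σ (z ^ σ)) - z ^ σ * η) ≤
    (tor y).real {φ | muy y σ (z ^ σ) - η ≤ Sy y σ φ ∧
      Sy y σ φ + Ky y σ - η ≤ Real.log ‖Zy y σ φ‖ ∧
      (1 - η) * omy y σ (z ^ σ) ≤ (Vy y σ φ).re}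

/-- Chernoff's bound for `Sy` -/
def ST_US : Prop := ∀ (y : ℕ) (σ s h : ℝ), 0 ≤ s →
  (tor y).real {φ | muy y σ s + h ≤ Sy y σ φ} ≤ Real.exp (-(Ly y σ s) - s * h)

/-- the upper bound for `|Vy|` -/
def ST_UV : Prop := ∀ ε ∈ Ioo (0:ℝ) (1 / 2), ∀ η ∈ Ioo (0:ℝ) 1, ∃ c z₀ : ℝ, 0 < c ∧
  ∀ (y : ℕ) (σ z : ℝ), σ ∈ Icc (1 / 2 + ε) 1 → z₀ ≤ z → z ≤ y →
  (tor y).real {φ | (1 + η) * omy y σ (z ^ σ) ≤ ‖Vy y σ φ‖} ≤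
    Real.exp (-(Ly y σ (z ^ σ)) - c * z ^ σ)

/-- the random model -/
def ST_RM : Prop := ∀ ε ∈ Ioo (0:ℝ) (1 / 2), ∀ η ∈ Ioo (0:ℝ) (1 / 2), ∃ N₀ : ℝ, 1 ≤ N₀ ∧
  ∀ N : ℝ, N₀ ≤ N → ∃ Y₀ : ℕ, ∀ y : ℕ, Y₀ ≤ y → ∀ σ ∈ Icc (1 / 2 + ε) 1, ∃ A B : ℝ,
  1 ≤ A ∧ 1 / η ≤ B ∧
  2 / N ≤ (tor y).real {φ | (1 - η) * A ≤ ‖Zy y σ φ‖ ∧ (1 - η) * B ≤ ‖Wy y σ φ‖} ∧
  (tor y).real {φ | (1 + η) * A ≤ ‖Zy y σ φ‖} ≤ 1 / (8 * N) ∧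
  (tor y).real {φ | (1 + η) * B ≤ ‖Wy y σ φ‖} ≤ 1 / (8 * N) ∧
  ∀ θ : ℝ, 2 / N ≤
    (tor y).real {φ | (1 - η) * B ≤ (Complex.exp (-((θ : ℂ) * Complex.I)) * Wy y σ φ).re}

/-- the theorem of Kronecker and Weyl, uniformly over a compact parameter space -/
def ST_KW1 : Prop := ∀ (y : ℕ) (X : Type) [TopologicalSpace X] [CompactSpace X]
  (H : X → (Pr y → ℝ) → ℝ), Continuous (fun q : X × (Pr y → ℝ) => H q.1 q.2) →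
  (∀ (k : X) (φ : Pr y → ℝ) (p : Pr y),
    H k (Function.update φ p (φ p + 2 * Real.pi)) = H k φ) →
  ∀ η : ℝ, 0 < η → ∃ T₀ : ℝ, 0 < T₀ ∧ ∀ T : ℝ, T₀ ≤ T → ∀ k : X,
    |(∫ t in T..(2 * T), H k (lin y t)) - T * ∫ φ, H k φ ∂tor y| ≤ η * T

/-- the same for level sets, with slack -/
def ST_KW2 : Prop := ∀ (y : ℕ) (X : Type) [TopologicalSpace X] [CompactSpace X]
  (G : X → (Pr y → ℝ) → ℝ), Continuous (fun q : X × (Pr y → ℝ) => G q.1 q.2) →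
  (∀ (k : X) (φ : Pr y → ℝ) (p : Pr y),
    G k (Function.update φ p (φ p + 2 * Real.pi)) = G k φ) →
  ∀ a η : ℝ, 0 < η → ∃ T₀ : ℝ, 0 < T₀ ∧ ∀ T : ℝ, T₀ ≤ T → ∀ k : X,
    T * ((tor y).real {φ | a ≤ G k φ} - η) ≤
      volume.real {t : ℝ | t ∈ Icc T (2 * T) ∧ a - η ≤ G k (lin y t)} ∧
    volume.real {t : ℝ | t ∈ Icc T (2 * T) ∧ a + η ≤ G k (lin y t)} ≤
      T * ((tor y).real {φ | a ≤ G k φ} + η)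

/-- continuity and periodicity of `Zy` and `Wy` -/
def ST_CN : Prop := ∀ y : ℕ,
  Continuous (fun q : (Icc (1 / 2 : ℝ) 1) × (Pr y → ℝ) => Zy y q.1 q.2) ∧
  Continuous (fun q : (Icc (1 / 2 : ℝ) 1) × (Pr y → ℝ) => Wy y q.1 q.2) ∧
  (∀ (σ : ℝ) (φ : Pr y → ℝ) (p : Pr y),
    Zy y σ (Function.update φ p (φ p + 2 * Real.pi)) = Zy y σ φ ∧
    Wy y σ (Function.update φ p (φ p + 2 * Real.pi)) = Wy y σ φ)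

/-- Plancherel's inequality on a finite interval -/
def ST_PL : Prop := ∀ f : ℝ → ℂ, Integrable f → Integrable (fun u => ‖f u‖ ^ 2) →
  ∀ T : ℝ, 0 < T →
  ∫ t in (-T)..T, ‖∫ u, f u * Complex.exp (-((t : ℂ) * u * Complex.I))‖ ^ 2 ≤
    100 * ∫ u, ‖f u‖ ^ 2

/-- `g2` is bounded, measurable, and vanishes on `(0, 2)` -/
def ST_BG : Prop := ∀ y : ℕ, (∃ B : ℝ, ∀ x : ℝ, 0 < x → |g2 y x| ≤ B) ∧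
  Measurable (fun u : ℝ => g2 y (Real.exp u)) ∧ (∀ x : ℝ, 0 < x → x < 2 → g2 y x = 0)

/-- the Dirichlet series of `Fy` -/
def ST_EP : Prop := ∀ (y : ℕ) (s : ℂ), 1 < s.re →
  HasSum (fun n : ℕ => if 2 ≤ n ∧ (∀ p ∈ n.primeFactors, y < p) then (n : ℂ) ^ (-s) else 0)
    (Fy y s)

/-- the Mellin transform of `g2` -/
def ST_MI : Prop := ∀ (y : ℕ) (s : ℂ), 0 < s.re → s ≠ 1 →
  ∫ u : ℝ, (g2 y (Real.exp u) : ℂ) * Complex.exp (-(s * u)) =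
    Fy y s * (s - 1) / (s * (s + 1))

/-- the mean square of the multiplicative differences of `g2` -/
def ST_DG : Prop := ∀ ε ∈ Ioo (0:ℝ) (1 / 2), ∃ C : ℝ, ∀ y : ℕ, 1 ≤ y → ∃ h₀ : ℝ, 0 < h₀ ∧
  ∀ h ∈ Ioc (0:ℝ) h₀, ∀ σ ∈ Icc (1 / 2 + ε) 2,
  Integrable (fun u : ℝ => (g2 y (Real.exp (u + h)) - g2 y (Real.exp u)) * Real.exp (-(σ * u))) ∧
  Integrable (fun u : ℝ =>
    ((g2 y (Real.exp (u + h)) - g2 y (Real.exp u)) * Real.exp (-(σ * u))) ^ 2) ∧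
  ∫ u : ℝ, ((g2 y (Real.exp (u + h)) - g2 y (Real.exp u)) * Real.exp (-(σ * u))) ^ 2 ≤
    C * h * (y : ℝ) ^ (-(2 * ε))

/-- mean square of `Fy` -/
def ST_MS : Prop := ∀ ε ∈ Ioo (0:ℝ) (1 / 2), ∀ κ : ℝ, 0 < κ → ∃ y₀ : ℕ, ∀ y : ℕ, y₀ ≤ y →
  ∃ T₀ : ℝ, 2 ≤ T₀ ∧ ∀ T : ℝ, T₀ ≤ T → ∀ σ ∈ Icc (1 / 2 + ε) 2,
  ∫ t in (T - 1)..(2 * T + 1), ‖Fy y (pt σ t)‖ ^ 2 ≤ κ * T

/-- pointwise bounds outside a small set -/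
def ST_AR : Prop := ∀ ε ∈ Ioo (0:ℝ) (1 / 2), ∀ η : ℝ, 0 < η → ∀ κ : ℝ, 0 < κ →
  ∃ y₀ : ℕ, ∀ y : ℕ, y₀ ≤ y →
  ∃ T₀ : ℝ, 2 ≤ T₀ ∧ ∀ T : ℝ, T₀ ≤ T → ∃ E : Set ℝ, E ⊆ Icc T (2 * T) ∧
  volume.real E ≤ κ * T ∧
  ∀ t ∈ Icc T (2 * T), t ∉ E → ∀ σ ∈ Icc (1 / 2 + ε) 1,
    ‖Fy y (pt σ t)‖ ≤ η ∧ ‖deriv (Fy y) (pt σ t)‖ ≤ η

/-- the relation between `ζ`, `Zy`, `Wy` and `Fy` -/
def ST_BR : Prop := ∀ (y : ℕ) (σ t : ℝ), 0 < σ → t ≠ 0 →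
  Zy y σ (lin y t) ≠ 0 ∧
  riemannZeta (pt σ t) = Zy y σ (lin y t) * (Fy y (pt σ t) + 1) ∧
  deriv riemannZeta (pt σ t) = Zy y σ (lin y t) * deriv (Fy y) (pt σ t) +
    Wy y σ (lin y t) * riemannZeta (pt σ t)

/-- `ζ` against the Euler product outside a small set -/
def ST_EX : Prop := ∀ ε ∈ Ioo (0:ℝ) (1 / 2), ∀ η ∈ Ioo (0:ℝ) (1 / 2), ∀ κ : ℝ, 0 < κ →
  ∃ y₀ : ℕ, ∀ y : ℕ, y₀ ≤ y →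
  ∃ T₀ : ℝ, 2 ≤ T₀ ∧ ∀ T : ℝ, T₀ ≤ T → ∃ E : Set ℝ, E ⊆ Icc T (2 * T) ∧
  volume.real E ≤ κ * T ∧
  ∀ t ∈ Icc T (2 * T), t ∉ E → ∀ σ ∈ Icc (1 / 2 + ε) 1,
    riemannZeta (pt σ t) ≠ 0 ∧
    ‖riemannZeta (pt σ t) / Zy y σ (lin y t) - 1‖ ≤ η ∧
    ‖deriv riemannZeta (pt σ t) / riemannZeta (pt σ t) - Wy y σ (lin y t)‖ ≤ η

/-- level sets of `|ζ|`, `|ζ'|` and `Re e^{-iθ} ζ'/ζ` -/
def ST_TS : Prop := ∀ ε ∈ Ioo (0:ℝ) (1 / 2), ∀ η ∈ Ioo (0:ℝ) (1 / 2), ∃ N₀ : ℝ, 1 ≤ N₀ ∧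
  ∀ N : ℝ, N₀ ≤ N → ∃ T₀ : ℝ, 2 ≤ T₀ ∧ ∀ T : ℝ, T₀ ≤ T → ∀ σ ∈ Icc (1 / 2 + ε) 1,
  ∃ A B : ℝ, 1 ≤ A ∧ 1 ≤ B ∧
  T / N ≤ volume.real {t : ℝ | t ∈ Icc T (2 * T) ∧ (1 - η) * A ≤ ‖riemannZeta (pt σ t)‖} ∧
  volume.real {t : ℝ | t ∈ Icc T (2 * T) ∧ (1 + η) * A ≤ ‖riemannZeta (pt σ t)‖} < T / N ∧
  T / N ≤ volume.real
    {t : ℝ | t ∈ Icc T (2 * T) ∧ (1 - η) * (A * B) ≤ ‖deriv riemannZeta (pt σ t)‖} ∧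
  volume.real
    {t : ℝ | t ∈ Icc T (2 * T) ∧ (1 + η) * (A * B) ≤ ‖deriv riemannZeta (pt σ t)‖} < T / N ∧
  ∀ θ : ℝ,
    T / N ≤ volume.real {t : ℝ | t ∈ Icc T (2 * T) ∧ (1 - η) * B ≤
      (Complex.exp (-((θ : ℂ) * Complex.I)) *
        (deriv riemannZeta (pt σ t) / riemannZeta (pt σ t))).re} ∧
    volume.real {t : ℝ | t ∈ Icc T (2 * T) ∧ (1 + η) * B ≤
      (Complex.exp (-((θ : ℂ) * Complex.I)) *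
        (deriv riemannZeta (pt σ t) / riemannZeta (pt σ t))).re} < T / N

/-- the final theorem -/
def ST_FIN : Prop := ∀ ε ∈ Ioo (0:ℝ) (1 / 2), ∀ δ : ℝ, 0 < δ → ∃ N₀ : ℝ, 1 ≤ N₀ ∧
  ∀ N : ℝ, N₀ ≤ N → ∃ T₀ : ℝ, 0 < T₀ ∧ ∀ T : ℝ, T₀ ≤ T → ∀ σ ∈ Icc (1 / 2 + ε) 1, ∀ θ : ℝ,
  (1 - δ) * (top N T (fun t => ‖deriv riemannZeta (pt σ t)‖) /
      top N T (fun t => ‖riemannZeta (pt σ t)‖)) ≤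
    top N T (fun t => (Complex.exp (-((θ : ℂ) * Complex.I)) *
      (deriv riemannZeta (pt σ t) / riemannZeta (pt σ t))).re) ∧
  top N T (fun t => (Complex.exp (-((θ : ℂ) * Complex.I)) *
      (deriv riemannZeta (pt σ t) / riemannZeta (pt σ t))).re) ≤
    (1 + δ) * (top N T (fun t => ‖deriv riemannZeta (pt σ t)‖) /
      top N T (fun t => ‖riemannZeta (pt σ t)‖))

end Pool.Agent.Helper57.QZ
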