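import Pool.Agent.Helper57.QZ.Stmts

/-!
# Second statement sheet: levels with `N` growing with `T`
-/

set_option autoImplicit false

namespace Pool.Agent.Helper57.QZ

open MeasureTheory Set Filter Topology

/-- the mollifier `∑_{n ≤ X} μ(n) n^{-s}` -/
noncomputable def MX (X : ℕ) (s : ℂ) : ℂ :=
  ∑ n ∈ Finset.Icc 1 X, ((ArithmeticFunction.moebius n : ℤ) : ℂ) * (n : ℂ) ^ (-s)

/-- `ζ M_X - 1` -/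
noncomputable def FX (X : ℕ) (s : ℂ) : ℂ := riemannZeta s * MX X s - 1

/-- its coefficients -/
noncomputable def bX (X n : ℕ) : ℝ :=
  ∑ d ∈ n.divisors.filter (fun d => d ≤ X), ((ArithmeticFunction.moebius d : ℤ) : ℝ)

/-- partial sums of the coefficients, without `n = 1` -/
noncomputable def NX (X : ℕ) (x : ℝ) : ℝ := ∑ n ∈ Finset.Icc 2 ⌊x⌋₊, bX X n

/-- the inverse Mellin transform of `FX (s - 1) / (s (s + 1))` -/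
noncomputable def gX (X : ℕ) (x : ℝ) : ℝ := NX X x - 2 / x * ∫ u in (0:ℝ)..x, NX X u

/-- the smoothing coefficients -/
noncomputable def KK (Y H x : ℝ) (n : ℕ) : ℂ :=
  (1 / (2 * Real.pi) : ℝ) * ∫ v in (-H)..H,
    ((Y / n : ℝ) : ℂ) ^ ((5 - x : ℝ) + (v : ℂ) * Complex.I) *
      Complex.exp (((5 - x : ℝ) + (v : ℂ) * Complex.I) ^ 2) / ((5 - x : ℝ) + (v : ℂ) * Complex.I)

/-- no zeros near the height `t` -/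
def Good (ε T t : ℝ) : Prop := ∀ σ ∈ Icc (1 / 2 + ε / 4) 5, ∀ τ : ℝ,
  |τ - t| ≤ Real.log T + 10 → riemannZeta (pt σ τ) ≠ 0

/-- the number of primes used -/
noncomputable def zA (A T : ℝ) : ℕ := ⌊Real.log T ^ A⌋₊

/-- the primes in `(z, z^6]` -/
noncomputable def Pz (z : ℕ) : Finset ℕ := (Finset.Icc (z + 1) (z ^ 6)).filter Nat.Prime

/-- trigonometric polynomials of degree at most `D` with coefficient sum at most `C` -/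
def TP (y D : ℕ) (C : ℝ) (F : (Pr y → ℝ) → ℂ) : Prop :=
  ∃ (ι : Type) (_ : Fintype ι) (n : ι → Pr y → ℤ) (c : ι → ℂ),
    (∀ j, ∑ p, |n j p| ≤ (D : ℤ)) ∧ ∑ j, ‖c j‖ ≤ C ∧
    ∀ φ, F φ = ∑ j, c j * Complex.exp (((∑ p, (n j p : ℝ) * φ p : ℝ) : ℂ) * Complex.I)

/-- the truncated exponential -/
noncomputable def Ek (k : ℕ) (x : ℝ) : ℝ := ∑ j ∈ Finset.range (k + 1), x ^ j / (j.factorial : ℝ)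

/-- the rotated linear part -/
noncomputable def Sa (y : ℕ) (σ α : ℝ) (φ : Pr y → ℝ) : ℝ :=
  ∑ p : Pr y, aa σ p * Real.cos (φ p + α)

/-- bound and measurability of `gX` -/
def ST_XB : Prop := ∀ X : ℕ, 1 ≤ X → (∀ x : ℝ, 0 < x → |gX X x| ≤ 10 * X) ∧
  Measurable (fun u : ℝ => gX X (Real.exp u)) ∧ (∀ x : ℝ, 0 < x → x < 2 → gX X x = 0)

/-- the Dirichlet series of `FX` -/
def ST_XE : Prop := ∀ (X : ℕ) (s : ℂ), 1 ≤ X → 1 < s.re →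
  HasSum (fun n : ℕ => if 2 ≤ n then (bX X n : ℂ) * (n : ℂ) ^ (-s) else 0) (FX X s) ∧
  ∀ n : ℕ, 2 ≤ n → n ≤ X → bX X n = 0

/-- the Mellin transform of `gX` -/
def ST_XM : Prop := ∀ (X : ℕ) (s : ℂ), 1 ≤ X → 0 < s.re → s ≠ 1 →
  ∫ u : ℝ, (gX X (Real.exp u) : ℂ) * Complex.exp (-(s * u)) =
    FX X s * (s - 1) / (s * (s + 1))

/-- the mean square of the multiplicative differences of `gX` -/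
def ST_XD : Prop := ∀ ε ∈ Ioo (0:ℝ) (1 / 2), ∃ C : ℝ, ∀ X : ℕ, 1 ≤ X →
  ∀ h ∈ Ioc (0:ℝ) 1, ∀ σ ∈ Icc (1 / 2 + ε) 5,
  Integrable (fun u : ℝ => (gX X (Real.exp (u + h)) - gX X (Real.exp u)) * Real.exp (-(σ * u))) ∧
  Integrable (fun u : ℝ =>
    ((gX X (Real.exp (u + h)) - gX X (Real.exp u)) * Real.exp (-(σ * u))) ^ 2) ∧
  ∫ u : ℝ, ((gX X (Real.exp (u + h)) - gX X (Real.exp u)) * Real.exp (-(σ * u))) ^ 2 ≤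
    C * (h * (X : ℝ) ^ (-ε) + h ^ (1 + ε) + (X : ℝ) ^ 2 * h ^ (1 + 2 * ε))

/-- mean square of `FX` -/
def ST_XS : Prop := ∀ ε ∈ Ioo (0:ℝ) (1 / 2), ∃ C : ℝ, ∀ X : ℕ, 1 ≤ X → ∀ T : ℝ, 4 ≤ T →
  ∀ σ ∈ Icc (1 / 2 + ε) 5,
  ∫ t in (T / 2)..(3 * T), ‖FX X (pt σ t)‖ ^ 2 ≤
    C * (T * (X : ℝ) ^ (-ε) + T ^ (1 - ε) + (X : ℝ) ^ 2 * T ^ (1 - 2 * ε))

/-- polynomial growth of zeta -/
def ST_ZG : Prop := ∃ C : ℝ, ∀ σ ∈ Icc (1 / 2 : ℝ) 6, ∀ t : ℝ, 1 ≤ t →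
  ‖riemannZeta (pt σ t)‖ ≤ C * t

/-- few heights are near a zero -/
def ST_XR : Prop := ∀ ε ∈ Ioo (0:ℝ) (1 / 2), ∃ c T₀ : ℝ, 0 < c ∧ c < 1 ∧ 4 ≤ T₀ ∧
  ∀ T : ℝ, T₀ ≤ T → ∃ E : Set ℝ, E ⊆ Icc T (2 * T) ∧ volume.real E ≤ T ^ (1 - c) ∧
  ∀ t ∈ Icc T (2 * T), t ∉ E → Good ε T t

/-- the logarithmic derivative away from zeros -/
def ST_LD : Prop := ∀ ε ∈ Ioo (0:ℝ) (1 / 2), ∃ C T₀ : ℝ, 0 < C ∧ 4 ≤ T₀ ∧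
  ∀ T : ℝ, T₀ ≤ T → ∀ t ∈ Icc T (2 * T), Good ε T t →
  ∀ σ ∈ Icc (1 / 2 + ε / 2) 5, ∀ τ : ℝ, |τ - t| ≤ Real.log T →
    riemannZeta (pt σ τ) ≠ 0 ∧
    ‖deriv riemannZeta (pt σ τ) / riemannZeta (pt σ τ)‖ ≤ C * Real.log T

/-- bounds for the smoothing coefficients -/
def ST_KE1 : Prop := ∃ C : ℝ, 0 < C ∧ ∀ (Y H x : ℝ) (n : ℕ), 2 ≤ Y → 1 ≤ H → x ∈ Icc (1 / 2 : ℝ) 4 →
  1 ≤ n → ‖KK Y H x n‖ ≤ C * (Y / n) ^ (5 - x) ∧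
  ((n : ℝ) ≤ Y → ‖KK Y H x n - 1‖ ≤ C * (n / Y + Y ^ (5:ℝ) * Real.exp (-(H ^ 2))))

/-- continuity of the smoothing coefficients -/
def ST_KE3 : Prop := ∀ (Y H : ℝ) (n : ℕ), 0 < Y → 0 < H → 1 ≤ n →
  ContinuousOn (fun x : ℝ => KK Y H x n) (Icc (1 / 2) 4)

/-- the smoothed formula -/
def ST_KE2 : Prop := ∀ ε ∈ Ioo (0:ℝ) (1 / 2), ∃ C : ℝ, 0 < C ∧
  ∀ (Y H M x t : ℝ) (f : ℂ → ℂ) (a : ℕ → ℂ), 2 ≤ Y → 1 ≤ H → x ∈ Icc (1 / 2 + ε) 4 →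
  (∀ s : ℂ, s.re ∈ Icc (1 / 2 + ε / 2) 5 → |s.im - t| ≤ H →
    DifferentiableAt ℂ f s ∧ ‖f s‖ ≤ M) → a 0 = 0 →
  Summable (fun n : ℕ => ‖a n‖ * (n : ℝ) ^ (-(5:ℝ))) →
  (∀ τ : ℝ, f (pt 5 τ) = ∑' n : ℕ, a n * (n : ℂ) ^ (-(pt 5 τ))) →
  ‖f (pt x t) - ∑' n : ℕ, a n * (n : ℂ) ^ (-(pt x t)) * KK Y H x n‖ ≤
    C * M * (Y ^ (-(ε / 2)) + Y ^ (5:ℝ) * Real.exp (-(H ^ 2)))

/-- `ζ'/ζ` against a short Dirichlet polynomial -/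
def ST_GD1 : Prop := ∀ ε ∈ Ioo (0:ℝ) (1 / 2), ∃ A₀ : ℝ, 3 ≤ A₀ ∧ ∀ A : ℝ, A₀ ≤ A →
  ∀ η : ℝ, 0 < η → ∃ T₀ : ℝ, 4 ≤ T₀ ∧ ∀ T : ℝ, T₀ ≤ T → ∀ x ∈ Icc (1 / 2 + ε) 4,
  ∀ t ∈ Icc T (2 * T), Good ε T t →
  ‖deriv riemannZeta (pt x t) / riemannZeta (pt x t) - Wy (zA A T) x (lin (zA A T) t) +
    ∑ p ∈ Pz (zA A T), ((Real.log p * (p : ℝ) ^ (-x) : ℝ) : ℂ) *
      KK ((zA A T : ℝ) ^ 3) (Real.log T) x p *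
      Complex.exp (-((t * Real.log p : ℝ) * Complex.I))‖ ≤ η

/-- `ζ'/ζ` and `log |ζ|` against short Dirichlet polynomials -/
def ST_GD2 : Prop := ∀ ε ∈ Ioo (0:ℝ) (1 / 2), ∃ C A₀ : ℝ, 0 < C ∧ 3 ≤ A₀ ∧ ∀ A : ℝ, A₀ ≤ A →
  ∀ η : ℝ, 0 < η → ∃ T₀ : ℝ, 4 ≤ T₀ ∧ ∀ T : ℝ, T₀ ≤ T → ∀ σ ∈ Icc (1 / 2 + ε) 1,
  ∃ u v : ℕ → ℂ, (∀ p : ℕ, zA A T < p →
    ‖u p‖ ≤ C * ((p : ℝ) ^ (-(1 / 2 + ε)) * Real.log p) ∧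
    ‖v p‖ ≤ C * ((p : ℝ) ^ (-(1 / 2 + ε)) * Real.log p)) ∧
  ∀ t ∈ Icc T (2 * T), Good ε T t → riemannZeta (pt σ t) ≠ 0 ∧
  ‖deriv riemannZeta (pt σ t) / riemannZeta (pt σ t) - Wy (zA A T) σ (lin (zA A T) t) -
    ∑ p ∈ Pz (zA A T), u p * Complex.exp (-((t * Real.log p : ℝ) * Complex.I))‖ ≤ η ∧
  |Real.log ‖riemannZeta (pt σ t)‖ - Real.log ‖Zy (zA A T) σ (lin (zA A T) t)‖ -
    (∑ p ∈ Pz (zA A T), v p * Complex.exp (-((t * Real.log p : ℝ) * Complex.I))).re| ≤ η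

/-- the short Dirichlet polynomial is rarely large -/
def ST_TL : Prop := ∀ ε ∈ Ioo (0:ℝ) (1 / 2), ∀ κ ∈ Ioo (0:ℝ) 1, ∀ C η : ℝ, 0 < C → 0 < η →
  ∃ A₀ : ℝ, 3 ≤ A₀ ∧ ∀ A : ℝ, A₀ ≤ A → ∃ T₀ : ℝ, 4 ≤ T₀ ∧ ∀ T : ℝ, T₀ ≤ T → ∀ u : ℕ → ℂ,
  (∀ p : ℕ, zA A T < p → ‖u p‖ ≤ C * ((p : ℝ) ^ (-(1 / 2 + ε)) * Real.log p)) →
  volume.real {t : ℝ | t ∈ Icc T (2 * T) ∧
    η ≤ ‖∑ p ∈ Pz (zA A T), u p * Complex.exp (-((t * Real.log p : ℝ) * Complex.I))‖} ≤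
    T * Real.exp (-(Real.log T ^ (1 - κ)))

/-- `ζ` against the short Euler product, outside a very small set -/
def ST_EX2 : Prop := ∀ ε ∈ Ioo (0:ℝ) (1 / 2), ∀ η ∈ Ioo (0:ℝ) (1 / 2), ∀ κ ∈ Ioo (0:ℝ) 1,
  ∃ A₀ : ℝ, 3 ≤ A₀ ∧ ∀ A : ℝ, A₀ ≤ A → ∃ T₀ : ℝ, 4 ≤ T₀ ∧ ∀ T : ℝ, T₀ ≤ T →
  ∀ σ ∈ Icc (1 / 2 + ε) 1, ∃ E : Set ℝ, E ⊆ Icc T (2 * T) ∧
  volume.real E ≤ T * Real.exp (-(Real.log T ^ (1 - κ))) ∧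
  ∀ t ∈ Icc T (2 * T), t ∉ E → riemannZeta (pt σ t) ≠ 0 ∧
    |Real.log ‖riemannZeta (pt σ t)‖ - Real.log ‖Zy (zA A T) σ (lin (zA A T) t)‖| ≤ η ∧
    ‖deriv riemannZeta (pt σ t) / riemannZeta (pt σ t) - Wy (zA A T) σ (lin (zA A T) t)‖ ≤ η

/-- algebra of trigonometric polynomials -/
def ST_TPA : Prop := ∀ y : ℕ,
  (∀ c : ℂ, TP y 0 ‖c‖ (fun _ => c)) ∧
  (∀ (p : Pr y) (α : ℝ), TP y 1 1 (fun φ => ((Real.cos (φ p + α) : ℝ) : ℂ))) ∧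
  (∀ D D' C C' F G, TP y D C F → TP y D' C' G → TP y (max D D') (C + C') (fun φ => F φ + G φ)) ∧
  (∀ D D' C C' F G, TP y D C F → TP y D' C' G → TP y (D + D') (C * C') (fun φ => F φ * G φ)) ∧
  (∀ D C F, TP y D C F → ∀ k : ℕ, TP y (k * D) (C ^ k) (fun φ => F φ ^ k)) ∧
  (∀ D D' C C' F, D ≤ D' → C ≤ C' → TP y D C F → TP y D' C' F)

/-- the mean value of a trigonometric polynomial along the line -/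
def ST_TPM : Prop := ∀ (y D : ℕ) (C : ℝ) (F : (Pr y → ℝ) → ℂ), 1 ≤ y → TP y D C F →
  ∀ T : ℝ, 0 < T →
  ‖(∫ t in T..(2 * T), F (lin y t)) - T * ∫ φ, F φ ∂tor y‖ ≤ 2 * C * (y : ℝ) ^ D

/-- rotation invariance for integrals -/
def ST_ROT : Prop := ∀ (y : ℕ) (α : ℝ) (F : (Pr y → ℝ) → ℝ), Continuous F →
  (∀ (φ : Pr y → ℝ) (p : Pr y), F (Function.update φ p (φ p + 2 * Real.pi)) = F φ) →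
  ∫ φ, F (fun p => φ p + α) ∂tor y = ∫ φ, F φ ∂tor y

/-- Chernoff's bound along the line -/
def ST_UT : Prop := ∀ (y k : ℕ) (u : Pr y → ℝ) (α lam v T : ℝ), 1 ≤ y → 1 ≤ k →
  (∀ p, 0 ≤ u p ∧ u p ≤ 1) → 0 ≤ lam → 0 ≤ v → lam * v ≤ k / 4 → 0 < T →
  2 * (1 + lam * y) ^ (2 * k) * (y : ℝ) ^ (2 * k) ≤ T →
  volume.real {t : ℝ | t ∈ Icc T (2 * T) ∧ v ≤ ∑ p : Pr y, u p * Real.cos (lin y t p + α)} ≤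
    4 * T * Real.exp ((∑ p : Pr y, ell (lam * u p)) - lam * v)

/-- the truncated weight against the exponential -/
def ST_WT : Prop := ∀ (y k : ℕ) (σ α s Γ : ℝ) (G : (Pr y → ℝ) → ℝ), 0 ≤ s → 0 ≤ σ → Continuous G →
  (∀ φ, |G φ| ≤ Γ) →
  |∫ φ, (Ek k (s / 2 * Sa y σ α φ) ^ 2 - Real.exp (s * Sa y σ α φ)) * G φ ∂tor y| ≤
    Γ * (1 / 4) ^ k * Real.exp (∑ p : Pr y, ell (3 * (s * aa σ p)))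

/-- the three bad events for the tilted law have total probability at most `1/4` -/
def ST_QB : Prop := ∀ ε ∈ Ioo (0:ℝ) (1 / 2), ∀ η ∈ Ioo (0:ℝ) 1, ∃ z₀ : ℝ,
  ∀ (y : ℕ) (σ z : ℝ), σ ∈ Icc (1 / 2 + ε) 1 → z₀ ≤ z → z ≤ y →
  1 ≤ omy y σ (z ^ σ) ∧
  (∑ p : Pr y, aa σ p ^ 2 * vv (z ^ σ * aa σ p)) / η ^ 2 +
    (∑ p : Pr y, 16 * aa σ p ^ 2 * (1 - rr (z ^ σ * aa σ p))) / η +
    (∑ p : Pr y, (aa σ p * Real.log p) ^ 2 * vv (z ^ σ * aa σ p)) /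
      (η * omy y σ (z ^ σ)) ^ 2 ≤ 1 / 4

/-- the lower bound along the line -/
def ST_LT : Prop := ∀ ε ∈ Ioo (0:ℝ) (1 / 2), ∀ η ∈ Ioo (0:ℝ) 1, ∃ z₀ : ℝ,
  ∀ (y k : ℕ) (σ z α T : ℝ), σ ∈ Icc (1 / 2 + ε) 1 → z₀ ≤ z → z ≤ y → 0 < T →
  400 * (y : ℝ) ^ 2 / η ^ 2 * Real.exp (∑ p : Pr y, ell (3 * (z ^ σ * aa σ p))) ≤ 4 ^ k →
  1000 * (1 + z ^ σ * y) ^ (2 * k) * (y : ℝ) ^ (2 * k + 4) / η ^ 2 ≤ T →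
  (1 / 2) * Real.exp (-(Ly y σ (z ^ σ)) - z ^ σ * η) * T ≤
    volume.real {t : ℝ | t ∈ Icc T (2 * T) ∧
      muy y σ (z ^ σ) - η ≤ Sa y σ α (lin y t) ∧
      16 * ∑ p : Pr y, aa σ p ^ 2 * (1 - Real.cos (lin y t p + α)) ≤ η ∧
      (1 - η) * omy y σ (z ^ σ) ≤
        ∑ p : Pr y, aa σ p * Real.log p * Real.cos (lin y t p + α)}

/-- upper bounds for the exponents -/
def ST_EU : Prop := ∀ ε ∈ Ioo (0:ℝ) (1 / 2), ∃ C : ℝ, 0 < C ∧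
  ∀ (y : ℕ) (σ z : ℝ), σ ∈ Icc (1 / 2 + ε) 1 → 2 ≤ z →
  ∑ p : Pr y, ell (3 * (z ^ σ * aa σ p)) ≤ C * z * Real.log z ∧
  z ^ σ * muy y σ (z ^ σ) ≤ C * z * Real.log z ∧
  z ^ σ * omy y σ (z ^ σ) ≤ C * z * Real.log z ^ 2

/-- lower bound for the rate function -/
def ST_LG : Prop := ∃ c z₀ : ℝ, 3 ≤ z₀ ∧ 0 < c ∧
  ∀ (y : ℕ) (σ z : ℝ), σ ∈ Icc (1 / 2) 1 → z₀ ≤ z → z ≤ y →
  c * z / Real.log z ≤ Ly y σ (z ^ σ)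

/-- the upper bound for `|Vy|` along the line -/
def ST_VT : Prop := ∀ ε ∈ Ioo (0:ℝ) (1 / 2), ∀ η ∈ Ioo (0:ℝ) 1, ∃ c z₀ : ℝ, 0 < c ∧
  ∀ (y k : ℕ) (σ z T : ℝ), σ ∈ Icc (1 / 2 + ε) 1 → z₀ ≤ z → z ≤ y → 1 ≤ k → 0 < T →
  8 * (z ^ σ * omy y σ (z ^ σ)) ≤ k →
  2 * (1 + z ^ σ * y) ^ (2 * k) * (y : ℝ) ^ (2 * k) ≤ T →
  volume.real {t : ℝ | t ∈ Icc T (2 * T) ∧ (1 + η) * omy y σ (z ^ σ) ≤ ‖Vy y σ (lin y t)‖} ≤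
    T * Real.exp (-(Ly y σ (z ^ σ)) - c * z ^ σ)

/-- Chernoff's bound for `Sy` along the line -/
def ST_ST : Prop := ∀ (y k : ℕ) (σ s h T : ℝ), 0 ≤ σ → 0 ≤ s → 0 ≤ h → 1 ≤ y → 1 ≤ k → 0 < T →
  s * (muy y σ s + h) ≤ k / 4 →
  2 * (1 + s * y) ^ (2 * k) * (y : ℝ) ^ (2 * k) ≤ T →
  volume.real {t : ℝ | t ∈ Icc T (2 * T) ∧ muy y σ s + h ≤ Sy y σ (lin y t)} ≤
    4 * T * Real.exp (-(Ly y σ s) - s * h)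

/-- the level sets of the short Euler product along the line -/
def ST_RT : Prop := ∀ ε ∈ Ioo (0:ℝ) (1 / 2), ∀ η ∈ Ioo (0:ℝ) (1 / 2), ∀ κ ∈ Ioo (0:ℝ) 1,
  ∃ N₀ : ℝ, 1 ≤ N₀ ∧ ∀ A : ℝ, 3 ≤ A → ∃ T₀ : ℝ, 4 ≤ T₀ ∧ ∀ T : ℝ, T₀ ≤ T → ∀ N : ℝ, N₀ ≤ N →
  N ≤ Real.exp (Real.log T ^ (1 - κ)) → ∀ σ ∈ Icc (1 / 2 + ε) 1, ∃ P Q : ℝ,
  1 ≤ P ∧ 1 / η ≤ Q ∧
  2 / N * T ≤ volume.real {t : ℝ | t ∈ Icc T (2 * T) ∧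
    (1 - η) * P ≤ ‖Zy (zA A T) σ (lin (zA A T) t)‖ ∧
    (1 - η) * Q ≤ ‖Wy (zA A T) σ (lin (zA A T) t)‖} ∧
  volume.real {t : ℝ | t ∈ Icc T (2 * T) ∧
    (1 + η) * P ≤ ‖Zy (zA A T) σ (lin (zA A T) t)‖} ≤ T / (8 * N) ∧
  volume.real {t : ℝ | t ∈ Icc T (2 * T) ∧
    (1 + η) * Q ≤ ‖Wy (zA A T) σ (lin (zA A T) t)‖} ≤ T / (8 * N) ∧
  ∀ θ : ℝ, 2 / N * T ≤ volume.real {t : ℝ | t ∈ Icc T (2 * T) ∧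
    (1 - η) * Q ≤
      (Complex.exp (-((θ : ℂ) * Complex.I)) * Wy (zA A T) σ (lin (zA A T) t)).re}

/-- level sets of `|ζ|`, `|ζ'|` and `Re e^{-iθ} ζ'/ζ`, with `N` growing -/
def ST_TS2 : Prop := ∀ ε ∈ Ioo (0:ℝ) (1 / 2), ∀ η ∈ Ioo (0:ℝ) (1 / 2), ∀ κ ∈ Ioo (0:ℝ) 1,
  ∃ N₀ T₀ : ℝ, 1 ≤ N₀ ∧ 4 ≤ T₀ ∧ ∀ T : ℝ, T₀ ≤ T → ∀ N : ℝ, N₀ ≤ N →
  N ≤ Real.exp (Real.log T ^ (1 - κ)) → ∀ σ ∈ Icc (1 / 2 + ε) 1,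
  ∃ A B : ℝ, 1 ≤ A ∧ 1 ≤ B ∧
  T / N ≤ volume.real {t : ℝ | t ∈ Icc T (2 * T) ∧ (1 - η) * A ≤ ‖riemannZeta (pt σ t)‖} ∧
  volume.real {t : ℝ | t ∈ Icc T (2 * T) ∧ (1 + η) * A ≤ ‖riemannZeta (pt σ t)‖} < T / N ∧
  T / N ≤ volume.real
    {t : ℝ | t ∈ Icc T (2 * T) ∧ (1 - η) * (A * B) ≤ ‖deriv riemannZeta (pt σ t)‖} ∧
  volume.real
    {t : ℝ | t ∈ Icc T (2 * T) ∧ (1 + η) * (A * B) ≤ ‖deriv riemannZeta (pt σ t)‖} < T / N ∧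
  ∀ θ : ℝ,
    T / N ≤ volume.real {t : ℝ | t ∈ Icc T (2 * T) ∧ (1 - η) * B ≤
      (Complex.exp (-((θ : ℂ) * Complex.I)) *
        (deriv riemannZeta (pt σ t) / riemannZeta (pt σ t))).re} ∧
    volume.real {t : ℝ | t ∈ Icc T (2 * T) ∧ (1 + η) * B ≤
      (Complex.exp (-((θ : ℂ) * Complex.I)) *
        (deriv riemannZeta (pt σ t) / riemannZeta (pt σ t))).re} < T / N

/-- the final theorem, with `N` growing -/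
def ST_FIN2 : Prop := ∀ ε ∈ Ioo (0:ℝ) (1 / 2), ∀ κ ∈ Ioo (0:ℝ) 1, ∀ δ : ℝ, 0 < δ →
  ∃ N₀ T₀ : ℝ, 1 < N₀ ∧ 1 < T₀ ∧ ∀ T : ℝ, T₀ ≤ T → ∀ N : ℝ, N₀ ≤ N →
  N ≤ Real.exp (Real.log T ^ (1 - κ)) → ∀ σ ∈ Icc (1 / 2 + ε) 1, ∀ θ : ℝ,
  (1 - δ) * (top N T (fun t => ‖deriv riemannZeta (pt σ t)‖) /
      top N T (fun t => ‖riemannZeta (pt σ t)‖)) ≤
    top N T (fun t => (Complex.exp (-((θ : ℂ) * Complex.I)) *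
      (deriv riemannZeta (pt σ t) / riemannZeta (pt σ t))).re) ∧
  top N T (fun t => (Complex.exp (-((θ : ℂ) * Complex.I)) *
      (deriv riemannZeta (pt σ t) / riemannZeta (pt σ t))).re) ≤
    (1 + δ) * (top N T (fun t => ‖deriv riemannZeta (pt σ t)‖) /
      top N T (fun t => ‖riemannZeta (pt σ t)‖))

end Pool.Agent.Helper57.QZ
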