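import Pool.Agent.Helper57.QZ.Stmts2

/-!
# Third statement sheet: `N` up to `exp (log T / (log log T) ^ 6)`
-/

set_option autoImplicit false

namespace Pool.Agent.Helper57.QZ

open MeasureTheory Set Filter Topology

/-- the short Dirichlet polynomial is rarely large -/
def ST_TL3 : Prop := ∀ ε ∈ Ioo (0:ℝ) (1 / 2), ∀ C η : ℝ, 0 < C → 0 < η →
  ∃ A₀ : ℝ, 3 ≤ A₀ ∧ ∀ A : ℝ, A₀ ≤ A → ∃ T₀ : ℝ, 4 ≤ T₀ ∧ ∀ T : ℝ, T₀ ≤ T → ∀ u : ℕ → ℂ,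
  (∀ p : ℕ, zA A T < p → ‖u p‖ ≤ C * ((p : ℝ) ^ (-(1 / 2 + ε)) * Real.log p)) →
  volume.real {t : ℝ | t ∈ Icc T (2 * T) ∧
    η ≤ ‖∑ p ∈ Pz (zA A T), u p * Complex.exp (-((t * Real.log p : ℝ) * Complex.I))‖} ≤
    T * Real.exp (-(Real.log T / Real.log (Real.log T) ^ 4))

/-- `ζ` against the short Euler product, outside a very small set -/
def ST_EX3 : Prop := ∀ ε ∈ Ioo (0:ℝ) (1 / 2), ∀ η ∈ Ioo (0:ℝ) (1 / 2),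
  ∃ A₀ : ℝ, 3 ≤ A₀ ∧ ∀ A : ℝ, A₀ ≤ A → ∃ T₀ : ℝ, 4 ≤ T₀ ∧ ∀ T : ℝ, T₀ ≤ T →
  ∀ σ ∈ Icc (1 / 2 + ε) 1, ∃ E : Set ℝ, E ⊆ Icc T (2 * T) ∧
  volume.real E ≤ 3 * T * Real.exp (-(Real.log T / Real.log (Real.log T) ^ 4)) ∧
  ∀ t ∈ Icc T (2 * T), t ∉ E → riemannZeta (pt σ t) ≠ 0 ∧
    |Real.log ‖riemannZeta (pt σ t)‖ - Real.log ‖Zy (zA A T) σ (lin (zA A T) t)‖| ≤ η ∧
    ‖deriv riemannZeta (pt σ t) / riemannZeta (pt σ t) - Wy (zA A T) σ (lin (zA A T) t)‖ ≤ η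

/-- the level sets of the short Euler product along the line -/
def ST_RT3 : Prop := ∀ ε ∈ Ioo (0:ℝ) (1 / 2), ∀ η ∈ Ioo (0:ℝ) (1 / 2),
  ∃ N₀ : ℝ, 1 ≤ N₀ ∧ ∀ A : ℝ, 3 ≤ A → ∃ T₀ : ℝ, 4 ≤ T₀ ∧ ∀ T : ℝ, T₀ ≤ T → ∀ N : ℝ, N₀ ≤ N →
  N ≤ Real.exp (Real.log T / Real.log (Real.log T) ^ 6) → ∀ σ ∈ Icc (1 / 2 + ε) 1, ∃ P Q : ℝ,
  1 ≤ P ∧ 1 / η ≤ Q ∧
  2 / N * T ≤ volume.real {t : ℝ | t ∈ Icc T (2 * T) ∧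
    (1 - η) * P ≤ ‖Zy (zA A T) σ (lin (zA A T) t)‖ ∧
    (1 - η) * Q ≤ ‖Wy (zA A T) σ (lin (zA A T) t)‖} ∧
  volume.real {t : ℝ | t ∈ Icc T (2 * T) ∧
    (1 + η) * P ≤ ‖Zy (zA A T) σ (lin (zA A T) t)‖} ≤ T / (8 * N) ∧
  volume.real {t : ℝ | t ∈ Icc T (2 * T) ∧
    (1 + η) * Q ≤ ‖Wy (zA A T) σ (lin (zA A T) t)‖} ≤ T / (8 * N) ∧
  ∀ θ : ℝ, 2 / N * T ≤ volume.real {t : ℝ | t ∈ Icc T (2 * T) ∧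
    (1 - η) * Q ≤
      (Complex.exp (-((θ : ℂ) * Complex.I)) * Wy (zA A T) σ (lin (zA A T) t)).re}

/-- level sets of `|ζ|`, `|ζ'|` and `Re e^{-iθ} ζ'/ζ`, with `N` growing -/
def ST_TS3 : Prop := ∀ ε ∈ Ioo (0:ℝ) (1 / 2), ∀ η ∈ Ioo (0:ℝ) (1 / 2),
  ∃ N₀ T₀ : ℝ, 1 ≤ N₀ ∧ 4 ≤ T₀ ∧ ∀ T : ℝ, T₀ ≤ T → ∀ N : ℝ, N₀ ≤ N →
  N ≤ Real.exp (Real.log T / Real.log (Real.log T) ^ 6) → ∀ σ ∈ Icc (1 / 2 + ε) 1,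
  ∃ A B : ℝ, 1 ≤ A ∧ 1 ≤ B ∧
  T / N ≤ volume.real {t : ℝ | t ∈ Icc T (2 * T) ∧ (1 - η) * A ≤ ‖riemannZeta (pt σ t)‖} ∧
  volume.real {t : ℝ | t ∈ Icc T (2 * T) ∧ (1 + η) * A ≤ ‖riemannZeta (pt σ t)‖} < T / N ∧
  T / N ≤ volume.real
    {t : ℝ | t ∈ Icc T (2 * T) ∧ (1 - η) * (A * B) ≤ ‖deriv riemannZeta (pt σ t)‖} ∧
  volume.real
    {t : ℝ | t ∈ Icc T (2 * T) ∧ (1 + η) * (A * B) ≤ ‖deriv riemannZeta (pt σ t)‖} < T / N ∧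
  ∀ θ : ℝ,
    T / N ≤ volume.real {t : ℝ | t ∈ Icc T (2 * T) ∧ (1 - η) * B ≤
      (Complex.exp (-((θ : ℂ) * Complex.I)) *
        (deriv riemannZeta (pt σ t) / riemannZeta (pt σ t))).re} ∧
    volume.real {t : ℝ | t ∈ Icc T (2 * T) ∧ (1 + η) * B ≤
      (Complex.exp (-((θ : ℂ) * Complex.I)) *
        (deriv riemannZeta (pt σ t) / riemannZeta (pt σ t))).re} < T / N

/-- the final theorem, with `N` growing -/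
def ST_FIN3 : Prop := ∀ ε ∈ Ioo (0:ℝ) (1 / 2), ∀ δ : ℝ, 0 < δ →
  ∃ N₀ T₀ : ℝ, 1 < N₀ ∧ 3 < T₀ ∧ ∀ T : ℝ, T₀ ≤ T → ∀ N : ℝ, N₀ ≤ N →
  N ≤ Real.exp (Real.log T / Real.log (Real.log T) ^ 6) → ∀ σ ∈ Icc (1 / 2 + ε) 1, ∀ θ : ℝ,
  (1 - δ) * (top N T (fun t => ‖deriv riemannZeta (pt σ t)‖) /
      top N T (fun t => ‖riemannZeta (pt σ t)‖)) ≤
    top N T (fun t => (Complex.exp (-((θ : ℂ) * Complex.I)) *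
      (deriv riemannZeta (pt σ t) / riemannZeta (pt σ t))).re) ∧
  top N T (fun t => (Complex.exp (-((θ : ℂ) * Complex.I)) *
      (deriv riemannZeta (pt σ t) / riemannZeta (pt σ t))).re) ≤
    (1 + δ) * (top N T (fun t => ‖deriv riemannZeta (pt σ t)‖) /
      top N T (fun t => ‖riemannZeta (pt σ t)‖))

end Pool.Agent.Helper57.QZ
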